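import Pool.Agent.PZD.Cubic

/-!
# MP_89ee62_ag: cubic Perazzo forms (arbitrary `n`, `m`, `g`) are doublings of
zero-dimensional schemes
-/

set_option autoImplicit false

open Pool.Agent.PZD in
theorem Pool.Agent.Results.MP_89ee62_ag.Cubics.result (n m : ℕ) (hn : 1 ≤ n) (K : Type)
    [Field K] [IsAlgClosed K] (F : Rg n m K →ₗ[K] K) (p : Fin (n + 1) → (Pu m K →ₗ[K] K))
    (g : Pu m K →ₗ[K] K) (hF : IsPerazzo 3 F p g) :
    IsDoublingOfPoints (Ann F) :=
  hF.doubling_of_cubic hn
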