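import Pool.Agent.PZD.Zero

/-!
# MP_89ee62_ag: Perazzo forms with `g` in `K[U]_1 · <p_0, …, p_n>` (in particular `g = 0`)
are doublings of zero-dimensional schemes
-/

set_option autoImplicit false

open Pool.Agent.PZD in
theorem Pool.Agent.Results.MP_89ee62_ag.GZero.result (n m d : ℕ) (hd : 1 ≤ d) (K : Type)
    [Field K] (F : Rg n m K →ₗ[K] K) (p : Fin (n + 1) → (Pu m K →ₗ[K] K)) (g : Pu m K →ₗ[K] K)
    (hF : IsPerazzo d F p g) (c : Fin (n + 1) → Fin m → K)
    (hg : ∀ r, g r = ∑ i, ∑ j, c i j * p i (MvPolynomial.pderiv j r)) :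
    IsDoublingOfPoints (Ann F) :=
  hF.doubling_of_zero hd c hg
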