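import Pool.Agent.PZG.Main

/-!
# MP_89ee62_ag: a criterion for all `g`, and general Perazzo forms with `n ≥ m`
-/

set_option autoImplicit false

open MvPolynomial Pool.Agent.PZD Pool.Agent.PZG in
theorem Pool.Agent.Results.MP_89ee62_ag.GeneralForms.result (n m d : ℕ) (hd : 1 ≤ d) (K : Type)
    [Field K] :
    (∀ (F : Rg n m K →ₗ[K] K) (p : Fin (n + 1) → (Pu m K →ₗ[K] K)) (g : Pu m K →ₗ[K] K),
      IsPerazzo d F p g → HalfCrit d p → IsDoublingOfPoints (Ann F)) ∧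
    (∀ m' : ℕ, 1 ≤ m' → m' ≤ m → m' ≤ n →
      ∃ Φ : MvPolynomial (Fin (n + 1) × Expo m m' (d - 1)) K, Φ ≠ 0 ∧
        ∀ p : Fin (n + 1) → (Pu m K →ₗ[K] K),
          (∀ i, ∀ j : Fin m, m' ≤ (j : ℕ) → ∀ r, p i (X j * r) = 0) →
          eval (coefs m' (d - 1) p) Φ ≠ 0 → HalfCrit d p) ∧
    ((m + d / 2 - 1).choose (d / 2) < n + 1 →
      ∀ p : Fin (n + 1) → (Pu m K →ₗ[K] K), HalfCrit d p) :=
  ⟨fun _ _ _ hF h => doubling_of_half hF hd h,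
    fun _ h1 h2 h3 => generic h1 h2 h3 hd,
    fun h _ => half_of_KT (exists_theta h)⟩
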