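import Pool.Agent.PZD.Two

/-!
# MP_89ee62_ag: Perazzo forms with `m = 2` (arbitrary `n ≥ 2`, `d`, `g`) are doublings of
zero-dimensional schemes
-/

set_option autoImplicit false

open Pool.Agent.PZD in
theorem Pool.Agent.Results.MP_89ee62_ag.TwoVariables.result (n d : ℕ) (hn : 2 ≤ n) (hd : 1 ≤ d)
    (K : Type) [Field K] [IsAlgClosed K] (F : Rg n 2 K →ₗ[K] K)
    (p : Fin (n + 1) → (Pu 2 K →ₗ[K] K)) (g : Pu 2 K →ₗ[K] K) (hF : IsPerazzo d F p g) :
    IsDoublingOfPoints (Ann F) :=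
  hF.doubling_of_two hd hn
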